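import Pool.Agent.helper37.NF.Spec

/-!
# Row NUM of project NF: the numerical inequality
-/

set_option autoImplicit false

namespace Pool.Agent.helper37.NF

open Finset Pool.Agent.NK

/-- `rho x` is at least `9.38` from `47` on. -/
theorem NUM_rho (x : ℝ) (hx : 47 ≤ x) : (9.38 : ℝ) ≤ rho x := by
  unfold rho
  have h0 : 0 < (3 * x + 1) * (3 * x + 2) * (3 * x + 3) := by positivity
  rw [le_div_iff₀ h0]
  nlinarith [mul_nonneg (sub_nonneg.2 hx) (sub_nonneg.2 hx),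
    mul_nonneg (mul_nonneg (sub_nonneg.2 hx) (sub_nonneg.2 hx)) (sub_nonneg.2 hx)]

/-- The large values of `s`. -/
theorem NUM_large (h : EXP_stmt) (s : ℕ) (hs : 47 ≤ s) :
    28 / (rho ((s + 1 : ℕ) : ℝ) * rho ((s + 2 : ℕ) : ℝ)) +
      4 / rho (s : ℝ) * (((s : ℝ) + 3) * ((s : ℝ) + 2) / ((3 * (s : ℝ) + 11) * (3 * (s : ℝ) + 10))) ≤
    (1 - 1 / ((s + 3 : ℕ) : ℝ)) ^ (s + 2) := by
  have hsr : (47 : ℝ) ≤ (s : ℝ) := by exact_mod_cast hs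
  have h0 : (9.38 : ℝ) ≤ rho (s : ℝ) := NUM_rho _ hsr
  have h1 : (9.38 : ℝ) ≤ rho ((s + 1 : ℕ) : ℝ) := NUM_rho _ (by push_cast; linarith)
  have h2 : (9.38 : ℝ) ≤ rho ((s + 2 : ℕ) : ℝ) := NUM_rho _ (by push_cast; linarith)
  have h3 : (0.3678 : ℝ) ≤ (1 - 1 / ((s + 3 : ℕ) : ℝ)) ^ (s + 2) := by
    have := h (s + 3) (by omega)
    have e : s + 3 - 1 = s + 2 := by omega
    rw [e] at this
    exact this
  have h4 : 28 / (rho ((s + 1 : ℕ) : ℝ) * rho ((s + 2 : ℕ) : ℝ)) ≤ 28 / ((9.38 : ℝ) * 9.38) := by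
    apply div_le_div_of_nonneg_left (by norm_num) (by norm_num)
    exact mul_le_mul h1 h2 (by norm_num) (by linarith)
  have h5 : 4 / rho (s : ℝ) ≤ 4 / (9.38 : ℝ) :=
    div_le_div_of_nonneg_left (by norm_num) (by norm_num) h0
  have h6 : ((s : ℝ) + 3) * ((s : ℝ) + 2) / ((3 * (s : ℝ) + 11) * (3 * (s : ℝ) + 10)) ≤ 1 / 9 := by
    rw [div_le_div_iff₀ (by positivity) (by norm_num)]
    nlinarith
  have h7 : 0 ≤ ((s : ℝ) + 3) * ((s : ℝ) + 2) / ((3 * (s : ℝ) + 11) * (3 * (s : ℝ) + 10)) := by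
    positivity
  have h8 : 4 / rho (s : ℝ) * (((s : ℝ) + 3) * ((s : ℝ) + 2) /
      ((3 * (s : ℝ) + 11) * (3 * (s : ℝ) + 10))) ≤ 4 / (9.38 : ℝ) * (1 / 9) :=
    mul_le_mul h5 h6 h7 (by norm_num)
  have h9 : 28 / ((9.38 : ℝ) * 9.38) + 4 / (9.38 : ℝ) * (1 / 9) ≤ 0.3678 := by norm_num
  linarith

/-- Row NUM. -/
theorem NUM (h : EXP_stmt) : NUM_stmt := by
  intro s hs
  rcases Nat.lt_or_ge s 47 with hlt | hge
  · interval_cases s <;> norm_num [rho]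
  · exact NUM_large h s hge

end Pool.Agent.helper37.NF
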